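import Pool.Agent.W341.UG.Stm

/-! UG-TELB: erasing a colour on a set, one vertex after the other. -/

set_option autoImplicit false

open Finset Pool.Agent.H983R2.GC Pool.Agent.W341.UG

namespace Pool.Agent.W215.UG

theorem era_insert_eq {V C : Type} [DecidableEq V] [DecidableEq C] (L : V → Finset C)
    (S : Finset V) (g : V) (c : C) :
    era (era L S c) {g} c = era L (insert g S) c := by
  funext w
  unfold era
  by_cases h2 : w = g
  · subst h2
    by_cases h1 : w ∈ S <;> simp [h1]
  · by_cases h1 : w ∈ S <;> simp [h1, h2]

theorem pr_nonneg' {V C : Type} [Fintype V] [DecidableEq V] [Fintype C] [DecidableEq C]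
    (G : SimpleGraph V) (c0 : C) (R : Finset V) (L : V → Finset C) (w : V) (a : C) :
    0 ≤ pr G c0 R L w a := by
  unfold pr EE
  apply div_nonneg _ (Nat.cast_nonneg _)
  apply Finset.sum_nonneg
  intro σ _
  split_ifs
  · exact zero_le_one
  · exact le_rfl

theorem t_TELB (hT : S_TEL) (hP : S_PRB) : S_TELB := by
  intro V C _ _ _ _ G c0 s R L F c D T hs hTR hSl hSlP hD huu
  have hs0 : (0 : ℝ) < s := by
    have : 0 < s := by omega
    exact_mod_cast this
  have key : ∀ T' : Finset V, T' ⊆ T →
      |EE G c0 R (era L T' c) F - EE G c0 R L F| ≤ 1 / (s : ℝ) * ∑ i ∈ T', D i := by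
    intro T'
    induction T' using Finset.induction_on with
    | empty =>
      intro _
      have h0 : era L ∅ c = L := by
        funext w
        unfold era
        simp
      rw [h0]
      simp
    | insert i T' hi ih =>
      intro hsub
      have hiT : i ∈ T := hsub (mem_insert_self i T')
      have hT'T : T' ⊆ T := (subset_insert i T').trans hsub
      have ih' := ih hT'T
      have hSl' : Sl G s R (era L T' c) :=
        Sl_era G s R T' L c hSl (fun w hw => hSlP w (hT'T hw))
      have hL'i : era L T' c i = L i := era_not_mem L T' c i hi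
      have hcard : (nb G R i).card + (s + 1) ≤ (era L T' c i).card := by
        rw [hL'i]
        have := hSlP i hiT
        omega
      have hp := hP V C G c0 R (era L T' c) i c (s + 1) (by omega) (hTR hiT) hcard
      have hp0 := pr_nonneg' G c0 R (era L T' c) i c
      set p : ℝ := pr G c0 R (era L T' c) i c with hpdef
      push_cast at hp
      have hp1 : p * (s + 1) ≤ 1 := by
        rwa [le_div_iff₀ (by positivity)] at hp
      have hlt : p < 1 := by nlinarith
      have htel := (hT V C G c0 R (era L T' c) i c (hTR hiT) (Sl_mono G hs R _ hSl') hlt).1 F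
      rw [era_insert_eq] at htel
      have h1 : |EE G c0 R (era L (insert i T') c) F - EE G c0 R (era L T' c) F| ≤
          1 / (s : ℝ) * D i := by
        rw [htel, abs_mul, abs_neg]
        have h2 : |pr G c0 R (era L T' c) i c / (1 - pr G c0 R (era L T' c) i c)| ≤
            1 / (s : ℝ) := by
          rw [← hpdef, abs_of_nonneg (div_nonneg hp0 (by linarith)),
            div_le_div_iff₀ (by linarith) hs0]
          linarith
        exact mul_le_mul h2 (huu T' hT'T i hiT hi) (abs_nonneg _) (by positivity)
      rw [Finset.sum_insert hi, mul_add]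
      calc |EE G c0 R (era L (insert i T') c) F - EE G c0 R L F|
          = |(EE G c0 R (era L (insert i T') c) F - EE G c0 R (era L T' c) F) +
            (EE G c0 R (era L T' c) F - EE G c0 R L F)| := by
            congr 1
            ring
        _ ≤ _ := abs_add_le _ _
        _ ≤ _ := add_le_add h1 ih'
  exact key T (Finset.Subset.refl T)

end Pool.Agent.W215.UG
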